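import Pool.Agent.Y798.OG.Stm3
import Pool.Agent.Y798.FC.One

/-! Orthogonal groups: the twisted means vanish (job OG-ONEP of helper798). -/

set_option autoImplicit false

namespace Pool.Agent.Y968.OG

open Filter Topology MeasureTheory UnitAddTorus NumberField IsDedekindDomain ComplexConjugate
  Pool.Agent.Y798.FC Pool.Agent.Y798.OG
open Pool.Agent.Y139.ID (Good good_ev avg avg_eq integrable_cont ev es chiW wordFun word_mul
  word_es word_one continuous_chiW continuous_es trig continuous_trig trig_single)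

/-- the signed permutations are finitely many -/
theorem fin_symp (r : ℕ) : Finite (sympW r) := by
  classical
  have h : ∀ w : sympW r, ∃ p : Equiv.Perm (Fin r) × (Fin r → ℤˣ), ∀ (x : Fin r → ℤ) (j : Fin r),
      (w : Auts (Fin r)) x j = ((p.2 j : ℤˣ) : ℤ) * x (p.1 j) := fun w => by
    obtain ⟨σ, s, h⟩ := w.2
    exact ⟨⟨σ, s⟩, h⟩
  choose p hp using h
  refine Finite.of_injective p fun w w' hw => ?_
  apply Subtype.ext
  apply LinearEquiv.ext
  intro x
  funext j
  rw [hp, hp, hw]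

section
variable {N : ℕ}

theorem span_sy {G : UnitAddTorus (Fin N) → ℂ} (hG : G ∈ Submodule.span ℤ (wordFun N)) :
    Continuous G ∧ Sy G := by
  induction hG using Submodule.span_induction with
  | mem f hf =>
    obtain ⟨r, k, -, rfl⟩ := hf
    exact ⟨continuous_chiW k, chiW_sy k⟩
  | zero => exact ⟨continuous_const, fun _ _ => rfl⟩
  | add f g _ _ hf hg =>
    exact ⟨hf.1.add hg.1, fun σ x => by rw [Pi.add_apply, Pi.add_apply, hf.2, hg.2]⟩
  | smul a f _ hf =>
    exact ⟨hf.1.const_smul a, fun σ x => by rw [Pi.smul_apply, Pi.smul_apply, hf.2]⟩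

theorem span_es {G : UnitAddTorus (Fin N) → ℂ} (hG : G ∈ Submodule.span ℤ (wordFun N)) :
    es N * G ∈ Submodule.span ℤ (wordFun N) := by
  induction hG using Submodule.span_induction with
  | mem f hf => exact Submodule.subset_span (word_mul (word_es N le_rfl) hf)
  | zero =>
    rw [mul_zero]
    exact Submodule.zero_mem _
  | add f g _ _ hf hg =>
    rw [mul_add]
    exact Submodule.add_mem _ hf hg
  | smul a f _ hf =>
    rw [mul_smul_comm]
    exact Submodule.smul_mem _ _ hf

variable {K : Type} [Field K] [NumberField K]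

theorem span_limB {h : HeightOneSpectrum (𝓞 K) → ℂ} {B : ℝ} (hB : ∀ v, ‖h v‖ ≤ B)
    (t : HeightOneSpectrum (𝓞 K) → UnitAddTorus (Fin N))
    (hn : ∀ (r : ℕ) (k : Fin r → ℕ), (∀ j, k j ≤ N) →
      ∃ n : ℤ, Tendsto (cE fun v => chiW k (t v) * h v) (𝓝[>] 0) (𝓝 (n : ℂ)))
    {G : UnitAddTorus (Fin N) → ℂ} (hG : G ∈ Submodule.span ℤ (wordFun N)) :
    ∃ n : ℤ, Tendsto (cE fun v => G (t v) * h v) (𝓝[>] 0) (𝓝 (n : ℂ)) := by
  have hbd : ∀ f : UnitAddTorus (Fin N) → ℂ, Continuous f → ∃ C : ℝ, ∀ v, ‖f (t v) * h v‖ ≤ C := by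
    intro f hf
    obtain ⟨C, hC0, hC⟩ := cont_bd hf
    refine ⟨C * B, fun v => ?_⟩
    rw [norm_mul]
    exact mul_le_mul (hC _) (hB v) (norm_nonneg _) hC0
  induction hG using Submodule.span_induction with
  | mem f hf =>
    obtain ⟨r, k, hk, rfl⟩ := hf
    exact hn r k hk
  | zero =>
    refine ⟨0, ?_⟩
    rw [Int.cast_zero]
    refine tendsto_const_nhds.congr fun ε => ?_
    simp [cE]
  | add f g hf' hg' hf hg =>
    obtain ⟨n, hn⟩ := hf
    obtain ⟨m, hm⟩ := hg
    refine ⟨n + m, ?_⟩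
    obtain ⟨C, hC⟩ := hbd f (span_sy hf').1
    obtain ⟨D, hD⟩ := hbd g (span_sy hg').1
    push_cast
    refine (hn.add hm).congr' ?_
    filter_upwards [good_ev (K := K)] with ε hε
    rw [← cE_add hε hC hD]
    congr 1
    funext v
    rw [Pi.add_apply]
    ring
  | smul a f _ hf =>
    obtain ⟨n, hn⟩ := hf
    refine ⟨a * n, ?_⟩
    push_cast
    refine (hn.const_mul (a : ℂ)).congr fun ε => ?_
    rw [← cE_const_mul]
    congr 1
    funext v
    rw [Pi.smul_apply, zsmul_eq_mul]
    ring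

/-- limits along an ultrafilter -/
theorem exists_real {U : Ultrafilter ℝ} (hU : (U : Filter ℝ) ≤ 𝓝[>] 0)
    {g : HeightOneSpectrum (𝓞 K) → ℝ} {C : ℝ} (hg : ∀ v, ‖(g v : ℂ)‖ ≤ C) :
    ∃ m : ℝ, Tendsto (cE fun v => (g v : ℂ)) (U : Filter ℝ) (𝓝 (m : ℂ)) := by
  have h1 : ((U.map (cE fun v => (g v : ℂ)) : Ultrafilter ℂ) : Filter ℂ) ≤
      𝓟 (Metric.closedBall (0 : ℂ) C) := by
    rw [le_principal_iff, Ultrafilter.coe_map, mem_map]
    filter_upwards [hU (good_ev (K := K))] with ε hε
    show cE (fun v => (g v : ℂ)) ε ∈ Metric.closedBall (0 : ℂ) C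
    rw [mem_closedBall_zero_iff]
    exact norm_cE_le hε hg
  obtain ⟨z, -, hz⟩ := (isCompact_closedBall (0 : ℂ) C).ultrafilter_le_nhds _ h1
  have hz' : Tendsto (cE fun v => (g v : ℂ)) (U : Filter ℝ) (𝓝 z) := hz
  have h2 : Tendsto (fun ε => (cE (fun v => (g v : ℂ)) ε).im) (U : Filter ℝ) (𝓝 z.im) :=
    (Complex.continuous_im.tendsto _).comp hz'
  have h3 : Tendsto (fun ε => (cE (fun v => (g v : ℂ)) ε).im) (U : Filter ℝ) (𝓝 0) := by
    refine tendsto_const_nhds.congr' ?_
    filter_upwards [hU (good_ev (K := K))] with ε hε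
    rw [cE_im hε hg, avg_eq]
    simp
  have h4 : z.im = 0 := tendsto_nhds_unique h2 h3
  refine ⟨z.re, ?_⟩
  have h5 : ((z.re : ℝ) : ℂ) = z := Complex.ext (by simp) (by simp [h4])
  rw [h5]
  exact hz'

variable {P : Bool → Part N}

theorem tot_cases (hdet : Det P) {t : HeightOneSpectrum (𝓞 K) → UnitAddTorus (Fin N)}
    (ht : ∀ v, t v ∈ classes P) (v : HeightOneSpectrum (𝓞 K)) :
    (ind P t true v = 1 ∧ ind P t false v = 0 ∧ (P true).emb ((P true).ret (t v)) = t v) ∨
    (ind P t true v = 0 ∧ ind P t false v = 1 ∧ (P false).emb ((P false).ret (t v)) = t v) := by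
  obtain ⟨i, hi⟩ := Set.mem_iUnion.1 (ht v)
  cases i with
  | true =>
    left
    have hn : t v ∉ Set.range (P false).emb := by
      rintro ⟨y, hy⟩
      obtain ⟨x, hx⟩ := hi
      have h1 := hdet.1 x
      have h2 := hdet.2 y
      rw [hx, ← hy, h2] at h1
      norm_num at h1
    refine ⟨?_, ?_, ?_⟩
    · unfold ind
      rw [if_pos hi]
    · unfold ind
      rw [if_neg hn]
    · obtain ⟨x, hx⟩ := hi
      rw [← hx, (P true).ret_emb]
  | false =>
    right
    have hn : t v ∉ Set.range (P true).emb := by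
      rintro ⟨y, hy⟩
      obtain ⟨x, hx⟩ := hi
      have h1 := hdet.2 x
      have h2 := hdet.1 y
      rw [hx, ← hy, h2] at h1
      norm_num at h1
    refine ⟨?_, ?_, ?_⟩
    · unfold ind
      rw [if_neg hn]
    · unfold ind
      rw [if_pos hi]
    · obtain ⟨x, hx⟩ := hi
      rw [← hx, (P false).ret_emb]

theorem tot_sum (hdet : Det P) {t : HeightOneSpectrum (𝓞 K) → UnitAddTorus (Fin N)}
    (ht : ∀ v, t v ∈ classes P) (v : HeightOneSpectrum (𝓞 K)) :
    ind P t true v + ind P t false v = 1 := by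
  rcases tot_cases hdet ht v with ⟨h1, h2, -⟩ | ⟨h1, h2, -⟩ <;> rw [h1, h2] <;> norm_num

theorem split_f (hdet : Det P) {t : HeightOneSpectrum (𝓞 K) → UnitAddTorus (Fin N)}
    (ht : ∀ v, t v ∈ classes P) (f : UnitAddTorus (Fin N) → ℂ) (v : HeightOneSpectrum (𝓞 K)) :
    f (t v) = (ind P t true v : ℂ) * f ((P true).emb ((P true).ret (t v))) +
      (ind P t false v : ℂ) * f ((P false).emb ((P false).ret (t v))) := by
  rcases tot_cases hdet ht v with ⟨h1, h2, h3⟩ | ⟨h1, h2, h3⟩
  · rw [h1, h2, h3]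
    simp
  · rw [h1, h2, h3]
    simp

/-- the constant of the law -/
noncomputable def cc (P : Bool → Part N) (i : Bool) : ℝ :=
  (((P i).κ : ℝ) * (Nat.card (sympW (P i).r) : ℝ))⁻¹

theorem kc_pos (P : Bool → Part N) (i : Bool) :
    0 < ((P i).κ : ℝ) * (Nat.card (sympW (P i).r) : ℝ) := by
  have h1 : (0 : ℝ) < (P i).κ := by exact_mod_cast (P i).κ_pos
  have h2 := fin_symp (P i).r
  have h3 : (0 : ℝ) < Nat.card (sympW (P i).r) := by exact_mod_cast Nat.card_pos
  exact mul_pos h1 h3

theorem cc_pos (P : Bool → Part N) (i : Bool) : 0 < cc P i := inv_pos.2 (kc_pos P i)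

theorem cc_cast (P : Bool → Part N) (i : Bool) :
    (((P i).κ : ℂ) * (Nat.card (sympW (P i).r) : ℂ))⁻¹ = (cc P i : ℂ) := by
  unfold cc
  push_cast
  rfl

/-- the mean square -/
noncomputable def ms (P : Bool → Part N) (d : ∀ i, (Fin (P i).r → ℤ) →₀ ℤ) (i : Bool) : ℝ :=
  cc P i * ∫ x, ‖trig (d i) x‖ ^ 2 * dens (P i).Φ x ∂(vol (Fin (P i).r))

theorem ms_nonneg (d : ∀ i, (Fin (P i).r → ℤ) →₀ ℤ) (i : Bool) : 0 ≤ ms P d i :=
  mul_nonneg (cc_pos P i).le (integral_nonneg fun _ => mul_nonneg (sq_nonneg _) (dens_nonneg _ _))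

theorem int_conj (d : ∀ i, (Fin (P i).r → ℤ) →₀ ℤ) (i : Bool) :
    (((P i).κ : ℂ) * (Nat.card (sympW (P i).r) : ℂ))⁻¹ *
      ∫ x, conj (trig (d i) x) * (trig (d i) x * (dens (P i).Φ x : ℂ)) ∂(vol (Fin (P i).r)) =
    (ms P d i : ℂ) := by
  have e : ∫ x, conj (trig (d i) x) * (trig (d i) x * (dens (P i).Φ x : ℂ))
      ∂(vol (Fin (P i).r)) =
      ((∫ x, ‖trig (d i) x‖ ^ 2 * dens (P i).Φ x ∂(vol (Fin (P i).r)) : ℝ) : ℂ) := by
    rw [← integral_complex_ofReal]
    refine integral_congr_ae (Eventually.of_forall fun x => ?_)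
    simp only
    rw [← mul_assoc, ← Complex.normSq_eq_conj_mul_self, Complex.normSq_eq_norm_sq]
    push_cast
    rfl
  rw [cc_cast, e]
  unfold ms
  push_cast
  rfl

theorem inv_emb {f : UnitAddTorus (Fin N) → ℂ} (hf : Sy f) (i : Bool) :
    ∀ w ∈ sympW (P i).r, ∀ x, f ((P i).emb (act w x)) = f ((P i).emb x) := by
  intro w hw x
  obtain ⟨σ, hσ⟩ := (P i).equi w hw x
  have e : (P i).emb (act w x) = fun j => (P i).emb x (σ j) := funext hσ
  rw [e]
  exact hf σ _

/-- the limits of the functions of both components -/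
theorem lim_L (hdet : Det P) {t : HeightOneSpectrum (𝓞 K) → UnitAddTorus (Fin N)}
    (ht : ∀ v, t v ∈ classes P) {U : Ultrafilter ℝ} (hU : (U : Filter ℝ) ≤ 𝓝[>] 0)
    {h : HeightOneSpectrum (𝓞 K) → ℂ} {B : ℝ} (hB : ∀ v, ‖h v‖ ≤ B)
    (d : ∀ i, (Fin (P i).r → ℤ) →₀ ℤ)
    (hd : ∀ i, ∀ f : UnitAddTorus (Fin (P i).r) → ℂ, Continuous f →
      (∀ w ∈ sympW (P i).r, ∀ x, f (act w x) = f x) →
        Tendsto (cE fun v => (ind P t i v : ℂ) * f ((P i).ret (t v)) * h v) (U : Filter ℝ)
          (𝓝 ((((P i).κ : ℂ) * (Nat.card (sympW (P i).r) : ℂ))⁻¹ *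
            ∫ x, f x * (trig (d i) x * (dens (P i).Φ x : ℂ)) ∂(vol (Fin (P i).r)))))
    {f : UnitAddTorus (Fin N) → ℂ} (hf : Continuous f) (hs : Sy f) :
    Tendsto (cE fun v => f (t v) * h v) (U : Filter ℝ)
      (𝓝 ((cc P true : ℂ) * ∫ x, f ((P true).emb x) * (trig (d true) x *
          (dens (P true).Φ x : ℂ)) ∂(vol (Fin (P true).r)) +
        (cc P false : ℂ) * ∫ x, f ((P false).emb x) * (trig (d false) x *
          (dens (P false).Φ x : ℂ)) ∂(vol (Fin (P false).r)))) := by
  have h1 := hd true (fun x => f ((P true).emb x)) (hf.comp (P true).cemb) (inv_emb hs true)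
  have h2 := hd false (fun x => f ((P false).emb x)) (hf.comp (P false).cemb) (inv_emb hs false)
  rw [cc_cast] at h1 h2
  obtain ⟨C, hC0, hC⟩ := cont_bd hf
  have hbd : ∀ i v, ‖(ind P t i v : ℂ) * f ((P i).emb ((P i).ret (t v))) * h v‖ ≤ C * B := by
    intro i v
    have h3 := ind_bd (P := P) (t := t) i v
    have hB0 : 0 ≤ B := (norm_nonneg _).trans (hB v)
    rw [norm_mul, norm_mul, Complex.norm_real, Real.norm_eq_abs, abs_of_nonneg h3.1]
    refine mul_le_mul ?_ (hB v) (norm_nonneg _) hC0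
    calc ind P t i v * ‖f ((P i).emb ((P i).ret (t v)))‖ ≤ 1 * C :=
          mul_le_mul h3.2 (hC _) (norm_nonneg _) zero_le_one
      _ = C := one_mul C
  refine (h1.add h2).congr' ?_
  filter_upwards [hU (good_ev (K := K))] with ε hε
  rw [← cE_add hε (hbd true) (hbd false)]
  congr 1
  funext v
  rw [split_f hdet ht f v]
  ring

end

/-- **The twisted means vanish.** -/
theorem t (hcomp : StmComp) (hdiff : StmDiff) (htr : StmTransW) (hcl : StmCl) (hfv : StmFV)
    (horb : StmOrb) : StmOneP := by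
  classical
  intro N P halg hsur hdet hmass K _ _ t ht hlim h S hS h2 h0 hes hn
  -- a bound
  obtain ⟨B, hB0, hB⟩ : ∃ B : ℝ, 0 ≤ B ∧ ∀ v, ‖h v‖ ≤ B := by
    refine ⟨1 + ∑ s ∈ S, |s|, ?_, fun v => ?_⟩
    · have : 0 ≤ ∑ s ∈ S, |s| := Finset.sum_nonneg fun s _ => abs_nonneg s
      linarith
    · have h3 : ‖h v‖ ^ 2 ≤ ∑ s ∈ S, |s| := by
        refine (le_abs_self _).trans ?_
        exact Finset.single_le_sum (f := fun s : ℝ => |s|) (fun s _ => abs_nonneg s) (hS v)
      nlinarith [norm_nonneg (h v), sq_nonneg (‖h v‖ - 1)]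
  obtain ⟨U, hU⟩ : ∃ U : Ultrafilter ℝ, (U : Filter ℝ) ≤ 𝓝[>] 0 :=
    ⟨Ultrafilter.of (𝓝[>] (0 : ℝ)), Ultrafilter.of_le _⟩
  have hW : ∀ i, WLaw (sympW (P i).r) (P i).Φ (P i).κ (fun v => (P i).ret (t v)) (ind P t i) U :=
    hcl N Bool P halg K t ht U hU fun r k hk => (hlim r k hk).mono_left hU
  have hbd : ∀ i v, 0 ≤ ind P t i v ∧ ind P t i v ≤ 1 := fun i v => ind_bd i v
  -- the projections
  have hex : ∀ i, ∃ d : (Fin (P i).r → ℤ) →₀ ℤ,
      (∀ w ∈ sympW (P i).r, ∀ x, trig d (act w x) = trig d x) ∧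
      (∀ w ∈ sympW (P i).r, ∀ μ, d (w μ) = d μ) ∧
      ∀ f : UnitAddTorus (Fin (P i).r) → ℂ, Continuous f →
        (∀ w ∈ sympW (P i).r, ∀ x, f (act w x) = f x) →
        Tendsto (cE fun v => (ind P t i v : ℂ) * f ((P i).ret (t v)) * h v) (U : Filter ℝ)
          (𝓝 ((((P i).κ : ℂ) * (Nat.card (sympW (P i).r) : ℂ))⁻¹ *
            ∫ x, f x * (trig d x * (dens (P i).Φ x : ℂ)) ∂(vol (Fin (P i).r)))) := by
    intro i
    refine hcomp K (P i).r (sympW (P i).r) (P i).Φ (fin_symp _) (P i).ne_zero (P i).inv (P i).κ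
      (P i).κ_pos (fun v => (P i).ret (t v)) (ind P t i) (hbd i) U hU (hW i) h B hB fun μ => ?_
    obtain ⟨G, hG, hG1, hG2⟩ := halg i μ
    obtain ⟨n, hn'⟩ := span_limB hB t hn hG
    refine ⟨n, (hn'.mono_left hU).congr fun ε => ?_⟩
    congr 1
    funext v
    rw [ind_eq ht hG2 v, hG1]
  choose d hd1 hd2 hd3 using hex
  have hTc : ∀ i, Continuous (trig (d i)) := fun i => continuous_trig _
  -- traces which are the conjugate functions
  have hG : ∀ i, ∃ G ∈ Submodule.span ℤ (wordFun N), ∀ x, G ((P i).emb x) =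
      conj (trig (d i) x) := by
    intro i
    obtain ⟨-, -, -, -, hdec⟩ := horb (Fin (P i).r) (sympW (P i).r) (fin_symp _)
    obtain ⟨R, b, hb⟩ := hdec (d i) (hd2 i)
    choose G hG hG' using hsur i
    refine ⟨∑ μ ∈ R, b μ • G μ, Submodule.sum_mem _ fun μ _ => Submodule.smul_mem _ _ (hG μ),
      fun x => ?_⟩
    rw [hb, Finset.sum_apply]
    refine Finset.sum_congr rfl fun μ _ => ?_
    rw [Pi.smul_apply, zsmul_eq_mul, hG']
  choose G hG1 hG2 using hG
  -- the integers
  have hint : ∀ i, ∃ n : ℤ, 2 * ms P d i = n := by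
    intro i
    obtain ⟨s, hs, hs1, hs2⟩ : ∃ s : ℤ, s * s = 1 ∧ (∀ x, es N ((P i).emb x) = (s : ℂ)) ∧
        ∀ j, j ≠ i → ∀ x, es N ((P j).emb x) = -(s : ℂ) := by
      cases i with
      | true =>
        refine ⟨1, by norm_num, fun x => ?_, fun j hj x => ?_⟩
        · rw [hdet.1, Int.cast_one]
        · cases j with
          | true => exact absurd rfl hj
          | false => rw [hdet.2, Int.cast_one]
      | false =>
        refine ⟨-1, by norm_num, fun x => ?_, fun j hj x => ?_⟩
        · rw [hdet.2]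
          push_cast
          rfl
        · cases j with
          | false => exact absurd rfl hj
          | true =>
            rw [hdet.1]
            push_cast
            ring
    have hs' : (s : ℂ) * s = 1 := by exact_mod_cast hs
    obtain ⟨F, hFd⟩ : ∃ F : UnitAddTorus (Fin N) → ℂ,
        F = G i + s • ((es N : UnitAddTorus (Fin N) → ℂ) * G i) := ⟨_, rfl⟩
    have hF : F ∈ Submodule.span ℤ (wordFun N) := by
      rw [hFd]
      exact Submodule.add_mem _ (hG1 i) (Submodule.smul_mem _ _ (span_es (hG1 i)))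
    have hF1 : ∀ x, F ((P i).emb x) = 2 * conj (trig (d i) x) := by
      intro x
      rw [hFd, Pi.add_apply, Pi.smul_apply, Pi.mul_apply, zsmul_eq_mul, hs1, hG2, ← mul_assoc,
        hs']
      ring
    have hF2 : ∀ j, j ≠ i → ∀ x, F ((P j).emb x) = 0 := by
      intro j hj x
      rw [hFd, Pi.add_apply, Pi.smul_apply, Pi.mul_apply, zsmul_eq_mul, hs2 j hj]
      have : (s : ℂ) * (-(s : ℂ) * G i ((P j).emb x)) = -((s : ℂ) * s) * G i ((P j).emb x) := by
        ring
      rw [this, hs']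
      ring
    obtain ⟨n, hn'⟩ := span_limB hB t hn hF
    refine ⟨n, ?_⟩
    have k1 := (hd3 i (fun x => conj (trig (d i) x)) (by have := hTc i; fun_prop)
      (fun w hw x => by rw [hd1 i w hw])).const_mul (2 : ℂ)
    rw [int_conj] at k1
    have k2 : Tendsto (fun ε => (2 : ℂ) * cE (fun v => (ind P t i v : ℂ) *
        conj (trig (d i) ((P i).ret (t v))) * h v) ε) (U : Filter ℝ) (𝓝 (n : ℂ)) := by
      refine (hn'.mono_left hU).congr fun ε => ?_
      rw [← cE_const_mul]
      congr 1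
      funext v
      rw [ind_eq ht hF2 v, hF1]
      ring
    have k3 := tendsto_nhds_unique k1 k2
    have k4 : ((2 * ms P d i : ℝ) : ℂ) = ((n : ℝ) : ℂ) := by
      push_cast
      exact k3
    exact_mod_cast k4
  choose n hn1 using hint
  -- the mean values of the squares
  have hmex : ∀ i, ∃ m : ℝ, Tendsto (cE fun v => ((ind P t i v * ‖h v‖ ^ 2 : ℝ) : ℂ))
      (U : Filter ℝ) (𝓝 (m : ℂ)) := by
    intro i
    refine exists_real hU (C := B ^ 2) fun v => ?_
    rw [Complex.norm_real, Real.norm_eq_abs,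
      abs_of_nonneg (mul_nonneg (hbd i v).1 (sq_nonneg _))]
    calc ind P t i v * ‖h v‖ ^ 2 ≤ 1 * B ^ 2 :=
          mul_le_mul (hbd i v).2 (pow_le_pow_left₀ (norm_nonneg _) (hB v) 2) (sq_nonneg _)
            zero_le_one
      _ = B ^ 2 := one_mul _
  choose m hm using hmex
  have hm1 : m true + m false = 1 := by
    have k1 := (hm true).add (hm false)
    have k2 : Tendsto (fun ε => cE (fun v => ((ind P t true v * ‖h v‖ ^ 2 : ℝ) : ℂ)) ε +
        cE (fun v => ((ind P t false v * ‖h v‖ ^ 2 : ℝ) : ℂ)) ε) (U : Filter ℝ) (𝓝 1) := by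
      refine (h2.mono_left hU).congr' ?_
      filter_upwards [hU (good_ev (K := K))] with ε hε
      have hb2 : ∀ i v, ‖((ind P t i v * ‖h v‖ ^ 2 : ℝ) : ℂ)‖ ≤ B ^ 2 := by
        intro i v
        rw [Complex.norm_real, Real.norm_eq_abs,
          abs_of_nonneg (mul_nonneg (hbd i v).1 (sq_nonneg _))]
        calc ind P t i v * ‖h v‖ ^ 2 ≤ 1 * B ^ 2 :=
              mul_le_mul (hbd i v).2 (pow_le_pow_left₀ (norm_nonneg _) (hB v) 2) (sq_nonneg _)
                zero_le_one
          _ = B ^ 2 := one_mul _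
      rw [← cE_add hε (hb2 true) (hb2 false)]
      congr 1
      funext v
      rw [← Complex.ofReal_add, ← add_mul, tot_sum hdet ht v, one_mul]
    have k3 := tendsto_nhds_unique k1 k2
    have k4 : ((m true + m false : ℝ) : ℂ) = ((1 : ℝ) : ℂ) := by
      push_cast
      exact k3
    exact_mod_cast k4
  -- the differences
  have hdf : ∀ i, Tendsto (cE fun v => ((ind P t i v * ‖h v - trig (d i) ((P i).ret (t v))‖ ^ 2
      : ℝ) : ℂ)) (U : Filter ℝ) (𝓝 ((m i - ms P d i : ℝ) : ℂ)) ∧ 0 ≤ m i - ms P d i := by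
    intro i
    exact hdiff K (P i).r (sympW (P i).r) (P i).Φ (P i).κ (fun v => (P i).ret (t v)) (ind P t i)
      (hbd i) U hU (hW i) h B hB (m i) (hm i) (trig (d i)) (hTc i) (hd1 i)
      (hd3 i (fun x => conj (trig (d i) x)) (by have := hTc i; fun_prop)
        (fun w hw x => by rw [hd1 i w hw]))
  -- the mass of the law
  have hmassc : ∀ i, cc P i * (2 * ∫ x, dens (P i).Φ x ∂(vol (Fin (P i).r))) = 1 := by
    intro i
    rw [hmass i]
    exact inv_mul_cancel₀ (kc_pos P i).ne'
  have hconst : ∀ i, m i = ms P d i → ∀ x, ‖trig (d i) x‖ ^ 2 = n i := by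
    intro i hi
    have k1 := (hdf i).1
    rw [hi, sub_self, Complex.ofReal_zero] at k1
    have k2 := htr K (P i).r (sympW (P i).r) (P i).Φ (fin_symp _) (P i).ne_zero (P i).κ
      (P i).κ_pos (fun v => (P i).ret (t v)) (ind P t i) (hbd i) U hU (hW i) h S hS
      (trig (d i)) (hTc i) (hd1 i) k1
    obtain ⟨s, hs⟩ := (hfv (Fin (P i).r) (d i)).1 S k2
    have k3 : 2 * ms P d i = s := by
      unfold ms
      have k4 : ∀ x, ‖trig (d i) x‖ ^ 2 * dens (P i).Φ x = s * dens (P i).Φ x := fun x => by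
        rw [hs]
      simp only [k4]
      rw [integral_const_mul]
      have k5 := hmassc i
      calc 2 * (cc P i * (s * ∫ x, dens (P i).Φ x ∂(vol (Fin (P i).r)))) =
            s * (cc P i * (2 * ∫ x, dens (P i).Φ x ∂(vol (Fin (P i).r)))) := by ring
        _ = s := by rw [k5, mul_one]
    intro x
    rw [hs, ← k3, hn1]
  -- the value at zero
  have hval : ∀ i, ∃ k : ℤ, trig (d i) 0 = k := by
    intro i
    refine ⟨(d i).sum fun _ a => a, ?_⟩
    unfold trig Finsupp.sum
    push_cast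
    refine Finset.sum_congr rfl fun μ _ => ?_
    have : mFourier μ (0 : UnitAddTorus (Fin (P i).r)) = 1 := by
      simp [mFourier]
    rw [this, mul_one]
  have hzero : ∀ i, n i = 0 → ∀ x, trig (d i) x = 0 := by
    intro i hi
    refine zero_of_dens (P i).ne_zero (hTc i) ?_
    have k1 := hn1 i
    rw [hi, Int.cast_zero] at k1
    unfold ms at k1
    have k2 := cc_pos P i
    have k3 : cc P i * ∫ x, ‖trig (d i) x‖ ^ 2 * dens (P i).Φ x ∂(vol (Fin (P i).r)) = 0 := by
      linarith
    exact (mul_eq_zero.1 k3).resolve_left k2.ne'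
  have hn0 : ∀ i, 0 ≤ n i := by
    intro i
    have k1 := hn1 i
    have k2 := ms_nonneg d i
    have : (0 : ℝ) ≤ n i := by linarith
    exact_mod_cast this
  have hn2 : n true + n false ≤ 2 := by
    have k1 := hn1 true
    have k2 := hn1 false
    have k3 := (hdf true).2
    have k4 := (hdf false).2
    have : ((n true + n false : ℤ) : ℝ) ≤ 2 := by
      push_cast
      linarith
    exact_mod_cast this
  -- one component
  have hone : ∀ i, n i = 1 → n (!i) ≠ 0 := by
    intro i hi hj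
    obtain ⟨k, hk⟩ := span_limB hB t hn (hG1 i)
    have k1 := lim_L hdet ht hU hB d hd3 (span_sy (hG1 i)).1 (span_sy (hG1 i)).2
    have k2 := tendsto_nhds_unique k1 (hk.mono_left hU)
    have k3 : (ms P d i : ℂ) = k := by
      rw [← k2, ← int_conj, cc_cast]
      cases i with
      | true =>
        have z := hzero false hj
        have e1 : ∫ x, G true ((P false).emb x) * (trig (d false) x *
            (dens (P false).Φ x : ℂ)) ∂(vol (Fin (P false).r)) = 0 := by
          simp only [z, zero_mul, mul_zero, integral_zero]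
        rw [e1, mul_zero, add_zero]
        simp only [hG2 true]
      | false =>
        have z := hzero true hj
        have e1 : ∫ x, G false ((P true).emb x) * (trig (d true) x *
            (dens (P true).Φ x : ℂ)) ∂(vol (Fin (P true).r)) = 0 := by
          simp only [z, zero_mul, mul_zero, integral_zero]
        rw [e1, mul_zero, zero_add]
        simp only [hG2 false]
    have k4 : ms P d i = k := by exact_mod_cast k3
    have k5 := hn1 i
    rw [hi, k4] at k5
    have k6 : 2 * k = 1 := by exact_mod_cast k5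
    omega
  -- the sum is not two
  have htwo : n true + n false ≠ 2 := by
    intro hsum
    have k1 := hn1 true
    have k2 := hn1 false
    have k3 := (hdf true).2
    have k4 := (hdf false).2
    have hsum' : (n true : ℝ) + n false = 2 := by exact_mod_cast hsum
    have c1 : m true = ms P d true := by linarith
    have c2 : m false = ms P d false := by linarith
    have hc : ∀ i, m i = ms P d i := by
      intro i
      cases i
      · exact c2
      · exact c1
    have hsq : ∀ i, ∃ k : ℤ, k ^ 2 = n i := by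
      intro i
      obtain ⟨k, hk⟩ := hval i
      refine ⟨k, ?_⟩
      have k5 := hconst i (hc i) 0
      rw [hk, Complex.norm_intCast, sq_abs] at k5
      exact_mod_cast k5
    have hne2 : ∀ i, n i ≠ 2 := by
      intro i hi
      obtain ⟨k, hk⟩ := hsq i
      rw [hi] at hk
      have k5 : k ≤ 1 := by nlinarith
      have k6 : -1 ≤ k := by nlinarith
      have k7 : k = -1 ∨ k = 0 ∨ k = 1 := by omega
      rcases k7 with k7 | k7 | k7 <;> rw [k7] at hk <;> norm_num at hk
    have ht1 := hne2 true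
    have hf1 := hne2 false
    have ht0 := hn0 true
    have hf0 := hn0 false
    have hn1' : ∀ i, n i = 1 := by
      intro i
      cases i
      · omega
      · omega
    have hTe : ∀ i, ∃ e : ℤ, e ≠ 0 ∧ ∀ x, trig (d i) x = e := by
      intro i
      have k5 : ∀ x, ‖trig (d i) x‖ = 1 := by
        intro x
        have k6 := hconst i (hc i) x
        rw [hn1' i, Int.cast_one] at k6
        exact (pow_eq_one_iff_of_nonneg (norm_nonneg _) two_ne_zero).1 k6
      obtain ⟨γ, e, he, hde⟩ := (hfv (Fin (P i).r) (d i)).2 k5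
      have he0 : e ≠ 0 := by rcases he with rfl | rfl <;> norm_num
      have hγ : γ = 0 := by
        refine noInv_symp (P i).r γ fun w hw => ?_
        have h7 := hd2 i w hw γ
        rw [hde, Finsupp.single_eq_same, Finsupp.single_apply] at h7
        by_contra hne
        rw [if_neg (fun h => hne h.symm)] at h7
        exact he0 h7.symm
      refine ⟨e, he0, fun x => ?_⟩
      rw [hde, trig_single, hγ, mFourier_zero]
      simp
    choose e he0 hTe using hTe
    have hmc : ∀ i, (cc P i : ℂ) * ∫ x, (dens (P i).Φ x : ℂ) ∂(vol (Fin (P i).r)) = 1 / 2 := by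
      intro i
      have k5 := hmassc i
      have k6 : cc P i * ∫ x, dens (P i).Φ x ∂(vol (Fin (P i).r)) = 1 / 2 := by linarith
      rw [integral_complex_ofReal, ← Complex.ofReal_mul, k6]
      push_cast
      rfl
    have l1 := lim_L hdet ht hU hB d hd3 (f := fun _ => (1 : ℂ)) continuous_const
      (fun _ _ => rfl)
    have l2 := lim_L hdet ht hU hB d hd3 (continuous_es N) (es_sy N)
    have e1 : ∀ i, (cc P i : ℂ) * ∫ x, (1 : ℂ) * (trig (d i) x * (dens (P i).Φ x : ℂ))
        ∂(vol (Fin (P i).r)) = (e i : ℂ) * (1 / 2) := by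
      intro i
      simp only [hTe i, one_mul]
      rw [integral_const_mul, ← hmc i]
      ring
    have l1' : (e true : ℂ) * (1 / 2) + (e false : ℂ) * (1 / 2) = 0 := by
      rw [e1 true, e1 false] at l1
      refine tendsto_nhds_unique l1 ((h0.mono_left hU).congr fun ε => ?_)
      congr 1
      funext v
      rw [one_mul]
    have l2' : (e true : ℂ) * (1 / 2) + -((e false : ℂ) * (1 / 2)) = 0 := by
      have e2 : (cc P true : ℂ) * ∫ x, es N ((P true).emb x) * (trig (d true) x *
          (dens (P true).Φ x : ℂ)) ∂(vol (Fin (P true).r)) = (e true : ℂ) * (1 / 2) := by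
        rw [← e1 true]
        simp only [hdet.1]
      have e3 : (cc P false : ℂ) * ∫ x, es N ((P false).emb x) * (trig (d false) x *
          (dens (P false).Φ x : ℂ)) ∂(vol (Fin (P false).r)) = -((e false : ℂ) * (1 / 2)) := by
        rw [← e1 false]
        simp only [hdet.2, neg_mul, one_mul]
        rw [integral_neg]
        ring
      rw [e2, e3] at l2
      exact tendsto_nhds_unique l2 (hes.mono_left hU)
    have l3 : (e true : ℂ) = 0 := by linear_combination l1' + l2'
    exact he0 true (by exact_mod_cast l3)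
  have hall : n true = 0 ∧ n false = 0 := by
    have a1 := hn0 true
    have a2 := hn0 false
    have a3 := hone true
    have a4 := hone false
    simp only [Bool.not_true, Bool.not_false] at a3 a4
    by_contra hcon
    have a5 : (n true = 1 ∧ n false = 0) ∨ (n true = 0 ∧ n false = 1) := by omega
    rcases a5 with ⟨b1, b2⟩ | ⟨b1, b2⟩
    · exact a3 b1 b2
    · exact a4 b2 b1
  -- the end
  intro r k hk
  obtain ⟨q, hq⟩ := hn r k hk
  have l1 := lim_L hdet ht hU hB d hd3 (continuous_chiW k) (chiW_sy k)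
  have l2 := tendsto_nhds_unique l1 (hq.mono_left hU)
  have z1 := hzero true hall.1
  have z2 := hzero false hall.2
  simp only [z1, z2, zero_mul, mul_zero, integral_zero, add_zero] at l2
  rw [← l2] at hq
  exact hq

end Pool.Agent.Y968.OG
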